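import Pool.Agent.DGP.Main1

set_option autoImplicit false

open scoped RealInnerProductSpace Topology ENNReal

namespace Pool.Agent.Results.MP_28a8c3_gt.ConvexHypersurfaces

open Pool.Agent.DGP

/-- Euclidean space `ℝ^{n+1}`. -/
abbrev V (n : ℕ) : Type := EuclideanSpace ℝ (Fin (n + 1))

/-- The group of linear isometries of `ℝ^{n+1}`. -/
abbrev O (n : ℕ) : Type := V n ≃ₗᵢ[ℝ] V n

/-- A convex body: a compact convex set with nonempty interior. -/
def IsConvexBody {n : ℕ} (K : Set (V n)) : Prop :=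
  Convex ℝ K ∧ IsCompact K ∧ (interior K).Nonempty

/-- Every element of `Γ` maps `K` onto `K`. -/
def Preserves {n : ℕ} (Γ : Subgroup (O n)) (K : Set (V n)) : Prop :=
  ∀ γ ∈ Γ, γ '' K = K

/-- `Γ` acts freely on the set `S`: no element `≠ 1` has a fixed point in `S`. -/
def FreeOn {n : ℕ} (Γ : Subgroup (O n)) (S : Set (V n)) : Prop :=
  ∀ γ ∈ Γ, γ ≠ 1 → ∀ x ∈ S, γ x ≠ x

/-- There is a homeomorphism from `S` to `T` commuting with the elements of `Γ`. -/
def EquivHomeo {n : ℕ} (Γ : Subgroup (O n)) (S T : Set (V n)) : Prop :=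
  ∃ f : S ≃ₜ T, ∀ γ ∈ Γ, ∀ x y : S, (y : V n) = γ x → (f y : V n) = γ (f x)

/-- The closed unit ball; its boundary is the round sphere `Sⁿ`. -/
def unitBall (n : ℕ) : Set (V n) := Metric.closedBall 0 1

/-- **Diameter gap for quotients of convex hypersurfaces.**

Let `n ≥ 1` and let `K` be a convex body in `ℝ^{n+1}` all of whose principal curvatures are `≥ 1` (in
the barrier sense `CurvGeOne`), and `Γ` a finite group of linear isometries preserving `K` and acting
freely on the hypersurface `∂K`.  Then the diameter of `∂K/Γ` for the intrinsic distance is at most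
`arccos (gapCos (n+1)) < π/2`, or else `Γ` acts freely on the round unit sphere `Sⁿ` with
`diam (Sⁿ/Γ) ≥ π/2` and `∂K` is `Γ`-equivariantly homeomorphic to `Sⁿ`.
Here `gapCos N = 1/√N` if `4 ∣ N` and `1/√(2N)` otherwise.  For `n = 3` the bound is attained. -/
theorem result :
    (∀ n : ℕ, 1 ≤ n → ∀ (K : Set (V n)) (Γ : Subgroup (O n)), IsConvexBody K → CurvGeOne K →
      Finite Γ → Preserves Γ K → FreeOn Γ (frontier K) →
      bdQuotDiam K Γ ≤ ENNReal.ofReal (Real.arccos (gapCos (n + 1))) ∨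
      (ENNReal.ofReal (Real.pi / 2) ≤ bdQuotDiam (unitBall n) Γ ∧
        FreeOn Γ (frontier (unitBall n)) ∧ EquivHomeo Γ (frontier K) (frontier (unitBall n)))) ∧
    (∃ Γ : Subgroup (O 3), Finite Γ ∧ FreeOn Γ (frontier (unitBall 3)) ∧
      bdQuotDiam (unitBall 3) Γ = ENNReal.ofReal (Real.arccos (gapCos 4))) := by
  have hfr : ∀ n : ℕ, frontier (unitBall n) = Metric.sphere (0 : V n) 1 := by
    intro n
    exact frontier_closedBall _ one_ne_zero
  obtain ⟨h1, h2⟩ := hypersurfaces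
  refine ⟨?_, ?_⟩
  · intro n hn K Γ hK hcurv hfin hinv hfree
    rcases h1 n hn K Γ hK.1 hK.2.1 hK.2.2 hcurv hfin hinv hfree with h | ⟨ha, hb, hc⟩
    · exact Or.inl h
    · refine Or.inr ⟨ha, ?_, ?_⟩
      · intro γ hγ hγ1 x hx
        rw [hfr] at hx
        exact hb γ hγ hγ1 x (by simpa using hx)
      · unfold EquivHomeo
        rw [hfr]
        exact hc
  · obtain ⟨Γ, hfin, hfree, hd⟩ := h2
    refine ⟨Γ, hfin, ?_, hd⟩
    intro γ hγ hγ1 x hx
    rw [hfr] at hx
    exact hfree γ hγ hγ1 x (by simpa using hx)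

end Pool.Agent.Results.MP_28a8c3_gt.ConvexHypersurfaces
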