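import Pool.Agent.DGP.Main3

set_option autoImplicit false

open scoped RealInnerProductSpace Topology Quaternion

namespace Pool.Agent.Results.MP_28a8c3_gt.LeftInvariantMetrics

open Pool.Agent.DGP

/-- **Diameter gap for left-invariant metrics on `S³` and their quotients.**

Let `B` be a left-invariant Riemannian metric on `S³` (the group of unit quaternions) with all
sectional curvatures `≥ 1`, and `Γ` a finite group of linear isometries of `ℍ = ℝ⁴` whose elements are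
isometries of `(S³, B)`, acting freely on `S³`.  Then `diam (S³/Γ, B) ≤ π/3`, or else there is a left-invariant
metric `B₀` with all sectional curvatures `≥ 1`, preserved by `Γ`, with `diam (S³/Γ, B₀) ≥ π/2`.
The bound `π/3` is attained. -/
theorem result :
    (∀ (B : ImH →ₗ[ℝ] ImH →ₗ[ℝ] ℝ), IsInner B → SecGeOne B →
      ∀ Γ : Subgroup (ℍ[ℝ] ≃ₗᵢ[ℝ] ℍ[ℝ]), Finite Γ → (∀ γ ∈ Γ, PreservesLI B γ) →
      (∀ γ ∈ Γ, γ ≠ 1 → ∀ x : ℍ[ℝ], ‖x‖ = 1 → γ x ≠ x) →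
      liQuotDiam B Γ ≤ Real.pi / 3 ∨
      ∃ B₀ : ImH →ₗ[ℝ] ImH →ₗ[ℝ] ℝ, IsInner B₀ ∧ SecGeOne B₀ ∧ (∀ γ ∈ Γ, PreservesLI B₀ γ) ∧
        Real.pi / 2 ≤ liQuotDiam B₀ Γ) ∧
    (∃ (B : ImH →ₗ[ℝ] ImH →ₗ[ℝ] ℝ) (Γ : Subgroup (ℍ[ℝ] ≃ₗᵢ[ℝ] ℍ[ℝ])), IsInner B ∧ SecGeOne B ∧
      Finite Γ ∧ (∀ γ ∈ Γ, PreservesLI B γ) ∧
      (∀ γ ∈ Γ, γ ≠ 1 → ∀ x : ℍ[ℝ], ‖x‖ = 1 → γ x ≠ x) ∧ liQuotDiam B Γ = Real.pi / 3) :=
  leftInvariant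

end Pool.Agent.Results.MP_28a8c3_gt.LeftInvariantMetrics
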