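import Pool.Agent.DGP.Main2

set_option autoImplicit false

open scoped RealInnerProductSpace Topology ENNReal

namespace Pool.Agent.Results.MP_28a8c3_gt.SpaceFormGapOrder

open Pool.Agent.DGP

/-- Euclidean space `ℝ^{2d}`. -/
abbrev W (d : ℕ) : Type := EuclideanSpace ℝ (Fin (2 * d))

/-- The group of linear isometries of `ℝ^{2d}`. -/
abbrev OW (d : ℕ) : Type := W d ≃ₗᵢ[ℝ] W d

/-- The closed unit ball; its boundary is the round sphere `S^{2d-1}`. -/
def unitBall (d : ℕ) : Set (W d) := Metric.closedBall 0 1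

/-- `Γ` acts freely on the round sphere `S^{2d-1}`: no element `≠ 1` has a fixed point there. -/
def FreeOnSphere {d : ℕ} (Γ : Subgroup (OW d)) : Prop :=
  ∀ γ ∈ Γ, γ ≠ 1 → ∀ x ∈ frontier (unitBall d), γ x ≠ x

/-- The diameter of `S^{2d-1}/Γ`. -/
noncomputable def sphDiam {d : ℕ} (Γ : Subgroup (OW d)) : ℝ≥0∞ := bdQuotDiam (unitBall d) Γ

lemma actsFreely {d : ℕ} {Γ : Subgroup (OW d)} (h : FreeOnSphere Γ) : ActsFreely Γ := by
  intro γ hγ hγ1 x hx
  by_contra hx0
  apply h γ hγ hγ1 ((‖x‖)⁻¹ • x)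
  · have hfr : frontier (unitBall d) = Metric.sphere (0 : W d) 1 :=
      frontier_closedBall _ one_ne_zero
    rw [hfr, mem_sphere_zero_iff_norm, norm_smul, norm_inv, norm_norm,
      inv_mul_cancel₀ (norm_ne_zero_iff.2 hx0)]
  · rw [map_smul, hx]

/-- **The gap below `π/2` of spherical space forms closes at least like `1/√n`.**

For every `d ≥ 2` there is a finite group `Γ` of linear isometries of `ℝ^{2d}` acting freely on the
round sphere `S^{2d-1}` with `diam (S^{2d-1}/Γ) ≥ arccos (1/√d)`, and such that every group `Γ'`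
isomorphic to `Γ` which acts freely by linear isometries on `S^{2d-1}` satisfies
`diam (S^{2d-1}/Γ') ≤ arccos (gapCos (2d)) < π/2`. -/
theorem result (d : ℕ) (hd : 2 ≤ d) :
    ∃ Γ : Subgroup (OW d), Finite Γ ∧ FreeOnSphere Γ ∧
      ENNReal.ofReal (Real.arccos (1 / √(d : ℝ))) ≤ sphDiam Γ ∧
      ∀ Γ' : Subgroup (OW d), Nonempty (Γ ≃* Γ') → FreeOnSphere Γ' →
        sphDiam Γ' ≤ ENNReal.ofReal (Real.arccos (gapCos (2 * d))) := by
  obtain ⟨Γ, h1, h2, h3, h4⟩ := order d hd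
  refine ⟨Γ, h1, ?_, h3, fun Γ' he hf => h4 Γ' he (actsFreely hf)⟩
  intro γ hγ hγ1 x hx h
  have h0 := h2 γ hγ hγ1 x h
  have hfr : frontier (unitBall d) = Metric.sphere (0 : W d) 1 :=
    frontier_closedBall _ one_ne_zero
  rw [hfr, mem_sphere_zero_iff_norm, h0, norm_zero] at hx
  exact zero_ne_one hx

end Pool.Agent.Results.MP_28a8c3_gt.SpaceFormGapOrder
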