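import Mathlib

set_option autoImplicit false

open scoped RealInnerProductSpace

namespace Pool.Agent.Results.MP_28a8c3_gt.SphericalGap

noncomputable section

/-- Euclidean space `ℝ^{n+1}`, whose unit sphere is the round sphere `Sⁿ`. -/
abbrev V (n : ℕ) : Type := EuclideanSpace ℝ (Fin (n + 1))

/-- The group `O(n+1)` of linear isometries of `ℝ^{n+1}`, the isometry group of `Sⁿ`. -/
abbrev O (n : ℕ) : Type := V n ≃ₗᵢ[ℝ] V n

/-- The distance in the quotient `Sⁿ/Γ` between the orbits of `p, q ∈ Sⁿ`: the infimum over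
`γ ∈ Γ` of the spherical distance (the angle) between `γ p` and `q`. -/
def orbitDist {n : ℕ} (Γ : Subgroup (O n)) (p q : V n) : ℝ :=
  ⨅ γ : Γ, InnerProductGeometry.angle ((γ : O n) p) q

/-- The diameter of `Sⁿ/Γ`. -/
def quotDiam {n : ℕ} (Γ : Subgroup (O n)) : ℝ :=
  ⨆ x : Metric.sphere (0 : V n) 1 × Metric.sphere (0 : V n) 1, orbitDist Γ x.1 x.2

/-! ### The gap -/

section gap

variable {n : ℕ} (Γ : Subgroup (O n))

/-- irreducibility of the action of `Γ` on `ℝ^{n+1}` -/
def Irred : Prop := ∀ W : Submodule ℝ (V n), (∀ γ ∈ Γ, ∀ w ∈ W, γ w ∈ W) → W = ⊥ ∨ W = ⊤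

lemma sum_eq_zero [Fintype Γ] (hn : 1 ≤ n) (hirr : Irred Γ) (p : V n) :
    ∑ γ : Γ, (γ : O n) p = 0 := by
  set s : V n := ∑ γ : Γ, (γ : O n) p with hs
  have hinv : ∀ δ ∈ Γ, δ s = s := by
    intro δ hδ
    rw [hs, map_sum]
    exact Fintype.sum_equiv (Equiv.mulLeft (⟨δ, hδ⟩ : Γ)) _ _ (fun γ => rfl)
  by_contra hne
  rcases hirr (ℝ ∙ s) (by
    intro γ hγ w hw
    obtain ⟨a, rfl⟩ := Submodule.mem_span_singleton.1 hw
    rw [map_smul, hinv γ hγ]
    exact Submodule.mem_span_singleton.2 ⟨a, rfl⟩) with h | h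
  · exact hne (Submodule.span_singleton_eq_bot.1 h)
  · have h1 : Module.finrank ℝ (ℝ ∙ s : Submodule ℝ (V n)) = 1 := finrank_span_singleton hne
    rw [h, finrank_top, finrank_euclideanSpace, Fintype.card_fin] at h1
    omega

/-- the operator `x ↦ ∑ ⟪γ p, x⟫ γ p` -/
def T [Fintype Γ] (p : V n) : V n →ₗ[ℝ] V n :=
  ∑ γ : Γ, (innerₛₗ ℝ ((γ : O n) p)).smulRight ((γ : O n) p)

lemma T_apply [Fintype Γ] (p x : V n) :
    T Γ p x = ∑ γ : Γ, ⟪(γ : O n) p, x⟫ • (γ : O n) p := by
  simp [T]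

lemma inner_T [Fintype Γ] (p x y : V n) :
    ⟪T Γ p x, y⟫ = ∑ γ : Γ, ⟪(γ : O n) p, x⟫ * ⟪(γ : O n) p, y⟫ := by
  rw [T_apply, sum_inner]
  simp [inner_smul_left]

lemma T_symm [Fintype Γ] (p : V n) : (T Γ p).IsSymmetric := by
  intro x y
  rw [inner_T, real_inner_comm, inner_T]
  refine Finset.sum_congr rfl fun γ _ => mul_comm _ _

lemma T_comm [Fintype Γ] (p x : V n) {δ : O n} (hδ : δ ∈ Γ) : T Γ p (δ x) = δ (T Γ p x) := by
  rw [T_apply, T_apply, map_sum]
  refine Fintype.sum_equiv (Equiv.mulLeft (⟨δ, hδ⟩ : Γ)⁻¹) _ _ (fun γ => ?_)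
  have h1 : ((Equiv.mulLeft (⟨δ, hδ⟩ : Γ)⁻¹ γ : Γ) : O n) p = δ.symm ((γ : O n) p) := rfl
  rw [h1, map_smul, LinearIsometryEquiv.apply_symm_apply]
  congr 1
  rw [← LinearIsometryEquiv.inner_map_map δ (δ.symm ((γ : O n) p)) x,
    LinearIsometryEquiv.apply_symm_apply]

lemma T_scalar [Fintype Γ] (hirr : Irred Γ) (p : V n) :
    ∃ c : ℝ, ∀ x, T Γ p x = c • x := by
  have hfin : Module.finrank ℝ (V n) = n + 1 := by
    rw [finrank_euclideanSpace, Fintype.card_fin]
  have hev := (T_symm Γ p).hasEigenvalue_eigenvalues hfin 0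
  set c : ℝ := (T_symm Γ p).eigenvalues hfin 0 with hc
  refine ⟨c, ?_⟩
  rcases hirr (Module.End.eigenspace (T Γ p) c) (by
    intro γ hγ w hw
    rw [Module.End.mem_eigenspace_iff] at hw ⊢
    rw [T_comm Γ p w hγ, hw, map_smul]) with h | h
  · exact absurd h hev
  · intro x
    have : x ∈ Module.End.eigenspace (T Γ p) c := by rw [h]; trivial
    rwa [Module.End.mem_eigenspace_iff] at this

lemma sum_sq [Fintype Γ] (hirr : Irred Γ) (p q : V n) (hp : ‖p‖ = 1) (hq : ‖q‖ = 1) :
    ∑ γ : Γ, ⟪(γ : O n) p, q⟫ ^ 2 = (Fintype.card Γ : ℝ) / (n + 1) := by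
  obtain ⟨c, hc⟩ := T_scalar Γ hirr p
  have key : ∀ x : V n, ∑ γ : Γ, ⟪(γ : O n) p, x⟫ ^ 2 = c * ‖x‖ ^ 2 := by
    intro x
    have h := inner_T Γ p x x
    rw [hc, inner_smul_left, real_inner_self_eq_norm_sq] at h
    simp only [pow_two] at h ⊢
    simpa using h.symm
  have htr : (Fintype.card Γ : ℝ) = c * (n + 1) := by
    have h1 : ∑ i : Fin (n + 1), ∑ γ : Γ,
        ⟪(γ : O n) p, EuclideanSpace.basisFun (Fin (n + 1)) ℝ i⟫ ^ 2 = c * (n + 1) := by
      simp only [key]
      simp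
      ring
    have h2 : ∀ γ : Γ, ∑ i : Fin (n + 1),
        ⟪(γ : O n) p, EuclideanSpace.basisFun (Fin (n + 1)) ℝ i⟫ ^ 2 = 1 := by
      intro γ
      have h3 := OrthonormalBasis.sum_sq_inner_right (EuclideanSpace.basisFun (Fin (n + 1)) ℝ)
        ((γ : O n) p)
      rw [LinearIsometryEquiv.norm_map, hp, one_pow] at h3
      rw [← h3]
      refine Finset.sum_congr rfl fun i _ => ?_
      rw [real_inner_comm]
    rw [Finset.sum_comm] at h1
    simp only [h2] at h1
    simpa using h1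
  rw [key q, hq, htr]
  have : (n : ℝ) + 1 ≠ 0 := by positivity
  field_simp

/-- Key lemma: an irreducible finite group moves `p` to a point with inner product at least
`1/(n+1)` with `q`. -/
lemma exists_inner_ge [Finite Γ] (hn : 1 ≤ n) (hirr : Irred Γ) (p q : V n) (hp : ‖p‖ = 1)
    (hq : ‖q‖ = 1) : ∃ γ : Γ, 1 / ((n : ℝ) + 1) ≤ ⟪(γ : O n) p, q⟫ := by
  have := Fintype.ofFinite Γ
  obtain ⟨γ₀, -, hmax⟩ := Finset.exists_max_image (Finset.univ : Finset Γ)
    (fun γ => ⟪(γ : O n) p, q⟫) ⟨1, Finset.mem_univ _⟩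
  refine ⟨γ₀, ?_⟩
  set ε : ℝ := ⟪(γ₀ : O n) p, q⟫ with hε
  have h1 : ∑ γ : Γ, ⟪(γ : O n) p, q⟫ = 0 := by
    rw [← sum_inner, sum_eq_zero Γ hn hirr, inner_zero_left]
  have h2 := sum_sq Γ hirr p q hp hq
  have h3 : 0 ≤ ∑ γ : Γ, (ε - ⟪(γ : O n) p, q⟫) * (1 + ⟪(γ : O n) p, q⟫) := by
    apply Finset.sum_nonneg
    intro γ _
    apply mul_nonneg
    · have := hmax γ (Finset.mem_univ _)
      linarith
    · have := neg_one_le_real_inner_of_norm_eq_one (x := (γ : O n) p) (y := q)
        (by rw [LinearIsometryEquiv.norm_map, hp]) hq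
      linarith
  have h4 : ∑ γ : Γ, (ε - ⟪(γ : O n) p, q⟫) * (1 + ⟪(γ : O n) p, q⟫) =
      ε * (Fintype.card Γ : ℝ) + (ε - 1) * ∑ γ : Γ, ⟪(γ : O n) p, q⟫ -
        ∑ γ : Γ, ⟪(γ : O n) p, q⟫ ^ 2 := by
    have : ∀ γ : Γ, (ε - ⟪(γ : O n) p, q⟫) * (1 + ⟪(γ : O n) p, q⟫) =
      ε + (ε - 1) * ⟪(γ : O n) p, q⟫ - ⟪(γ : O n) p, q⟫ ^ 2 := fun γ => by ring
    simp only [this]
    rw [Finset.sum_sub_distrib, Finset.sum_add_distrib, ← Finset.mul_sum]
    simp
    ring
  rw [h4, h1, h2] at h3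
  have hcard : (0 : ℝ) < Fintype.card Γ := by
    have : 0 < Fintype.card Γ := Fintype.card_pos
    exact_mod_cast this
  have h5 : (Fintype.card Γ : ℝ) * (1 / ((n : ℝ) + 1)) ≤ (Fintype.card Γ : ℝ) * ε := by
    have : (Fintype.card Γ : ℝ) * (1 / ((n : ℝ) + 1)) = (Fintype.card Γ : ℝ) / (n + 1) := by ring
    rw [this]
    linarith
  exact le_of_mul_le_mul_left h5 hcard

end gap

section diam

variable {n : ℕ} (Γ : Subgroup (O n))

lemma bddBelow_angle (p q : V n) :
    BddBelow (Set.range fun γ : Γ => InnerProductGeometry.angle ((γ : O n) p) q) :=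
  ⟨0, by rintro _ ⟨γ, rfl⟩; exact InnerProductGeometry.angle_nonneg _ _⟩

lemma orbitDist_le (p q : V n) (γ : Γ) :
    orbitDist Γ p q ≤ InnerProductGeometry.angle ((γ : O n) p) q :=
  ciInf_le (bddBelow_angle Γ p q) γ

lemma orbitDist_le_pi (p q : V n) : orbitDist Γ p q ≤ Real.pi :=
  (orbitDist_le Γ p q 1).trans (InnerProductGeometry.angle_le_pi _ _)

lemma le_quotDiam (p q : V n) (hp : ‖p‖ = 1) (hq : ‖q‖ = 1) :
    orbitDist Γ p q ≤ quotDiam Γ := by
  have hb : BddAbove (Set.range fun x : Metric.sphere (0 : V n) 1 × Metric.sphere (0 : V n) 1 =>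
      orbitDist Γ x.1 x.2) := by
    refine ⟨Real.pi, ?_⟩
    rintro _ ⟨x, rfl⟩
    exact orbitDist_le_pi Γ _ _
  exact le_ciSup hb (⟨p, by simpa using hp⟩, ⟨q, by simpa using hq⟩)

lemma angle_eq (p q : V n) (hp : ‖p‖ = 1) (hq : ‖q‖ = 1) (γ : O n) :
    InnerProductGeometry.angle (γ p) q = Real.arccos ⟪γ p, q⟫ := by
  rw [InnerProductGeometry.angle, LinearIsometryEquiv.norm_map, hp, hq]
  simp

instance : Nonempty (Metric.sphere (0 : V n) 1) :=
  (NormedSpace.sphere_nonempty.2 zero_le_one).to_subtype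

lemma quotDiam_le_of_irred [Finite Γ] (hn : 1 ≤ n) (hirr : Irred Γ) :
    quotDiam Γ ≤ Real.arccos (1 / ((n : ℝ) + 1)) := by
  apply ciSup_le
  rintro ⟨⟨p, hp⟩, ⟨q, hq⟩⟩
  have hp' : ‖p‖ = 1 := by simpa using hp
  have hq' : ‖q‖ = 1 := by simpa using hq
  obtain ⟨γ, hγ⟩ := exists_inner_ge Γ hn hirr p q hp' hq'
  refine (orbitDist_le Γ p q γ).trans ?_
  rw [angle_eq p q hp' hq']
  exact Real.arccos_le_arccos hγ

lemma exists_unit {W : Submodule ℝ (V n)} (hW : W ≠ ⊥) : ∃ p ∈ W, ‖p‖ = 1 := by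
  obtain ⟨w, hw, hne⟩ := Submodule.exists_mem_ne_zero_of_ne_bot hW
  refine ⟨(‖w‖)⁻¹ • w, W.smul_mem _ hw, ?_⟩
  rw [norm_smul, norm_inv, norm_norm, inv_mul_cancel₀ (norm_ne_zero_iff.2 hne)]

lemma le_quotDiam_of_not_irred (hirr : ¬ Irred Γ) : Real.pi / 2 ≤ quotDiam Γ := by
  unfold Irred at hirr
  push Not at hirr
  obtain ⟨W, hW, hbot, htop⟩ := hirr
  obtain ⟨p, hpW, hp⟩ := exists_unit hbot
  obtain ⟨q, hqW, hq⟩ := exists_unit (W := Wᗮ) (by rwa [ne_eq, Submodule.orthogonal_eq_bot_iff])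
  refine le_trans ?_ (le_quotDiam Γ p q hp hq)
  apply le_ciInf
  intro γ
  rw [angle_eq p q hp hq, Submodule.inner_right_of_mem_orthogonal (hW γ γ.2 p hpW) hqW,
    Real.arccos_zero]

end diam

/-! ### Sharpness: the simplex group -/

section simplex

variable (n : ℕ)

/-- the ambient space of the standard simplex -/
abbrev F : Type := EuclideanSpace ℝ (Fin (n + 2))

/-- the all-one vector -/
def one : F n := WithLp.toLp 2 (fun _ => (1 : ℝ))

lemma inner_one (x : F n) : ⟪one n, x⟫ = ∑ i, x i := by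
  rw [PiLp.inner_apply]
  simp [one]

/-- A regular simplex: unit vectors with pairwise inner products `-1/(n+1)`, whose sum is zero and
whose differences span. -/
lemma exists_simplex : ∃ v : Fin (n + 2) → V n, (∀ i, ‖v i‖ = 1) ∧
    (∀ i j, i ≠ j → ⟪v i, v j⟫ = -(1 / ((n : ℝ) + 1))) ∧ (∑ i, v i = 0) ∧
    (∀ w : V n, (∀ i j, ⟪w, v i⟫ = ⟪w, v j⟫) → w = 0) := by
  have hone : one n ≠ 0 := by
    intro h
    have := congrArg (fun x : F n => x 0) h
    simp [one] at this
  let Hyp : Submodule ℝ (F n) := (ℝ ∙ one n)ᗮ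
  have hfin : Module.finrank ℝ Hyp = n + 1 := by
    have h1 := Submodule.finrank_add_finrank_orthogonal (ℝ ∙ one n : Submodule ℝ (F n))
    rw [finrank_span_singleton hone, finrank_euclideanSpace, Fintype.card_fin] at h1
    change Module.finrank ℝ (ℝ ∙ one n)ᗮ = n + 1
    omega
  let e : Hyp ≃ₗᵢ[ℝ] V n := ((stdOrthonormalBasis ℝ Hyp).reindex (finCongr hfin)).repr
  have hN : (0 : ℝ) < (n : ℝ) + 1 := by positivity
  have hN2 : (0 : ℝ) < (n : ℝ) + 2 := by positivity
  let c : ℝ := √(((n : ℝ) + 2) / ((n : ℝ) + 1))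
  have hc2 : c * c = ((n : ℝ) + 2) / ((n : ℝ) + 1) := Real.mul_self_sqrt (by positivity)
  let u : Fin (n + 2) → F n := fun i => EuclideanSpace.single i (1 : ℝ) - ((n : ℝ) + 2)⁻¹ • one n
  have hinner_one : ∀ i, ⟪one n, EuclideanSpace.single i (1 : ℝ)⟫ = 1 := by
    intro i
    rw [inner_one]
    simp
  have hone_one : ⟪one n, one n⟫ = (n : ℝ) + 2 := by
    rw [inner_one]
    simp [one]
  have huH : ∀ i, u i ∈ Hyp := by
    intro i
    rw [Submodule.mem_orthogonal_singleton_iff_inner_right]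
    simp only [u, inner_sub_right, inner_smul_right, hinner_one, hone_one]
    field_simp
    ring
  have huu : ∀ i j, ⟪u i, u j⟫ = (if i = j then 1 else 0) - ((n : ℝ) + 2)⁻¹ := by
    intro i j
    have h1 : ⟪u i, u j⟫ = ⟪EuclideanSpace.single i (1 : ℝ), u j⟫ := by
      have : ⟪one n, u j⟫ = 0 := by
        have := huH j
        rwa [Submodule.mem_orthogonal_singleton_iff_inner_right] at this
      simp only [u] at this ⊢
      rw [inner_sub_left, inner_smul_left, this, mul_zero, sub_zero]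
    rw [h1]
    simp only [u, inner_sub_right, inner_smul_right]
    rw [real_inner_comm (one n), hinner_one, mul_one, EuclideanSpace.inner_single_left]
    simp
  refine ⟨fun i => e (c • ⟨u i, huH i⟩), ?_, ?_, ?_, ?_⟩
  · intro i
    rw [LinearIsometryEquiv.norm_map]
    have : ‖(c • (⟨u i, huH i⟩ : Hyp))‖ ^ 2 = 1 := by
      rw [← real_inner_self_eq_norm_sq, inner_smul_left, inner_smul_right, Submodule.coe_inner]
      simp only [huu, if_true, conj_trivial]
      rw [← mul_assoc, hc2]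
      field_simp
      ring
    nlinarith [norm_nonneg (c • (⟨u i, huH i⟩ : Hyp))]
  · intro i j hij
    rw [LinearIsometryEquiv.inner_map_map, inner_smul_left, inner_smul_right,
      Submodule.coe_inner]
    simp only [huu, if_neg hij, conj_trivial]
    rw [← mul_assoc, hc2]
    field_simp
    ring
  · rw [← map_sum, ← Finset.smul_sum]
    have : ∑ i, (⟨u i, huH i⟩ : Hyp) = 0 := by
      apply Subtype.ext
      rw [Submodule.coe_sum]
      ext k
      rw [WithLp.ofLp_sum, Finset.sum_apply]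
      simp [u, one]
      field_simp
      ring
    rw [this, smul_zero, map_zero]
  · intro w hw
    have h1 : ∀ i, ⟪w, e (c • ⟨u i, huH i⟩)⟫ = c * (e.symm w : F n) i := by
      intro i
      rw [← LinearIsometryEquiv.inner_map_map e.symm, LinearIsometryEquiv.symm_apply_apply,
        inner_smul_right, Submodule.coe_inner]
      simp only [u]
      have h2 : ⟪((e.symm w : Hyp) : F n), one n⟫ = 0 := by
        rw [real_inner_comm]
        exact (Submodule.mem_orthogonal_singleton_iff_inner_right).1 (e.symm w).2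
      rw [inner_sub_right, inner_smul_right, h2, mul_zero, sub_zero,
        EuclideanSpace.inner_single_right]
      simp
    have hcpos : 0 < c := Real.sqrt_pos.2 (by positivity)
    have h2 : ∀ i, (e.symm w : F n) i = (e.symm w : F n) 0 := by
      intro i
      have := hw i 0
      simp only [h1] at this
      exact mul_left_cancel₀ hcpos.ne' this
    have h3 : ∑ i, (e.symm w : F n) i = 0 := by
      have := (Submodule.mem_orthogonal_singleton_iff_inner_right).1 (e.symm w).2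
      rwa [inner_one] at this
    have h4 : (e.symm w : F n) 0 = 0 := by
      simp only [h2] at h3
      simp at h3
      rcases h3 with h3 | h3
      · have : (n : ℝ) + 2 ≠ 0 := by positivity
        exact absurd h3 this
      · exact h3
    have h5 : e.symm w = 0 := by
      apply Subtype.ext
      ext i
      rw [h2 i, h4]
      simp
    rw [← LinearIsometryEquiv.apply_symm_apply e w, h5, map_zero]

/-- The group of all isometries preserving a set `S`. -/
def stab (S : Set (V n)) : Subgroup (O n) where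
  carrier := {γ | γ '' S = S}
  mul_mem' := by
    intro a b ha hb
    have ha' : a '' S = S := ha
    have hb' : b '' S = S := hb
    change (fun x => a (b x)) '' S = S
    rw [← Set.image_image, hb', ha']
  one_mem' := by
    change (fun x => x) '' S = S
    exact Set.image_id' S
  inv_mem' := by
    intro a ha
    have ha' : a '' S = S := ha
    change a.symm '' S = S
    conv_lhs => rw [← ha']
    rw [Set.image_image]
    simp

lemma mem_stab (S : Set (V n)) (γ : O n) : γ ∈ stab n S ↔ γ '' S = S := Iff.rfl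

/-- the simplex group is finite, irreducible and has the extremal diameter -/
lemma simplex_group (hn : 1 ≤ n) : ∃ Γ : Subgroup (O n), Finite Γ ∧
    quotDiam Γ = Real.arccos (1 / ((n : ℝ) + 1)) := by
  obtain ⟨v, hv1, hvij, hsum, hspan⟩ := exists_simplex n
  have hN : (0 : ℝ) < (n : ℝ) + 1 := by positivity
  let Γ : Subgroup (O n) := stab n (Set.range v)
  have hvinj : Function.Injective v := by
    intro i j hij
    by_contra hne
    have h1 := hvij i j hne
    rw [hij, real_inner_self_eq_norm_sq, hv1] at h1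
    have : (0 : ℝ) < 1 / ((n : ℝ) + 1) := by positivity
    linarith
  -- an isometry is determined by its values on the `v i`
  have hdet : ∀ γ δ : O n, (∀ i, γ (v i) = δ (v i)) → γ = δ := by
    intro γ δ h
    apply LinearIsometryEquiv.ext
    intro x
    have h0 : ∀ y : V n, y - γ.symm (δ y) = 0 ↔ γ y = δ y := by
      intro y
      rw [sub_eq_zero]
      constructor
      · intro h
        conv_lhs => rw [h]
        simp
      · intro h
        rw [← h]
        simp
    -- the symmetric pairing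
    rw [← h0]
    rw [← norm_eq_zero, ← sq_eq_zero_iff, ← real_inner_self_eq_norm_sq]
    have hz : ∀ w : V n, (∀ i, ⟪w, v i⟫ = 0) → w = 0 := fun w hw =>
      hspan w fun i j => by rw [hw i, hw j]
    have : x - γ.symm (δ x) = 0 := by
      apply hz
      intro i
      rw [inner_sub_left, sub_eq_zero]
      have h1 : v i = δ.symm (γ (v i)) := by rw [h i]; simp
      have h2 : ⟪γ.symm (δ x), v i⟫ = ⟪x, δ.symm (γ (v i))⟫ := by
        rw [← LinearIsometryEquiv.inner_map_map γ, LinearIsometryEquiv.apply_symm_apply,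
          ← LinearIsometryEquiv.inner_map_map δ.symm, LinearIsometryEquiv.symm_apply_apply]
      rw [h2, ← h1]
    rw [this, inner_zero_left]
  have hfin : Finite Γ := by
    have hmem : ∀ γ : Γ, ∀ i, ∃ j, v j = (γ : O n) (v i) := by
      intro γ i
      have h1 : (γ : O n) '' Set.range v = Set.range v := γ.2
      have h2 : (γ : O n) (v i) ∈ Set.range v := by
        rw [← h1]
        exact ⟨v i, ⟨i, rfl⟩, rfl⟩
      exact h2
    choose f hf using hmem
    apply Finite.of_injective f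
    intro γ δ h
    apply Subtype.ext
    apply hdet
    intro i
    rw [← hf γ i, ← hf δ i, h]
  -- the transpositions
  have hswap : ∀ i j, i ≠ j → ∃ γ ∈ Γ, γ (v i) = v j ∧ (∀ k, k ≠ i → k ≠ j → γ (v k) = v k) ∧
      ∀ w, ∃ a : ℝ, w - γ w = a • (v i - v j) ∧ (⟪w, v i⟫ ≠ ⟪w, v j⟫ → a ≠ 0) := by
    intro i j hij
    have hne : v i - v j ≠ 0 := sub_ne_zero.2 (hvinj.ne hij)
    have hform : ∀ w : V n, ((ℝ ∙ (v i - v j))ᗮ).reflection w =
        w - (2 * ⟪v i - v j, w⟫ / ‖v i - v j‖ ^ 2) • (v i - v j) := by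
      intro w
      rw [Submodule.reflection_orthogonal_apply, Submodule.reflection_apply,
        Submodule.starProjection_singleton]
      simp only [RCLike.ofReal_real_eq_id, id_eq]
      module
    have hnorm : ‖v i - v j‖ ^ 2 = 2 + 2 * (1 / ((n : ℝ) + 1)) := by
      rw [norm_sub_sq_real, hv1, hv1, hvij i j hij]
      ring
    have hpos : 0 < ‖v i - v j‖ ^ 2 := by rw [hnorm]; positivity
    have e1 : ((ℝ ∙ (v i - v j))ᗮ).reflection (v i) = v j := by
      rw [hform, inner_sub_left, real_inner_self_eq_norm_sq, hv1, hvij j i hij.symm, hnorm]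
      have : 2 * ((1 : ℝ) ^ 2 - -(1 / ((n : ℝ) + 1))) / (2 + 2 * (1 / ((n : ℝ) + 1))) = 1 := by
        field_simp
        ring
      rw [this]
      simp
    have e2 : ((ℝ ∙ (v i - v j))ᗮ).reflection (v j) = v i := by
      have h := congrArg (fun x => ((ℝ ∙ (v i - v j))ᗮ).reflection x) e1
      simp only [Submodule.reflection_reflection] at h
      exact h.symm
    have e3 : ∀ k, k ≠ i → k ≠ j → ((ℝ ∙ (v i - v j))ᗮ).reflection (v k) = v k := by
      intro k hki hkj
      rw [hform, inner_sub_left, hvij i k hki.symm, hvij j k hkj.symm]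
      simp
    refine ⟨((ℝ ∙ (v i - v j))ᗮ).reflection, ?_, e1, e3, ?_⟩
    · rw [mem_stab]
      have hsub : ((ℝ ∙ (v i - v j))ᗮ).reflection '' Set.range v ⊆ Set.range v := by
        rintro _ ⟨_, ⟨k, rfl⟩, rfl⟩
        by_cases hki : k = i
        · rw [hki, e1]; exact ⟨j, rfl⟩
        · by_cases hkj : k = j
          · rw [hkj, e2]; exact ⟨i, rfl⟩
          · rw [e3 k hki hkj]; exact ⟨k, rfl⟩
      apply hsub.antisymm
      intro x hx
      refine ⟨((ℝ ∙ (v i - v j))ᗮ).reflection x, hsub ⟨x, hx, rfl⟩, ?_⟩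
      rw [Submodule.reflection_reflection]
    · intro w
      refine ⟨2 * ⟪v i - v j, w⟫ / ‖v i - v j‖ ^ 2, ?_, ?_⟩
      · rw [hform]
        abel
      · intro hw h0
        apply hw
        have h1 : 2 * ⟪v i - v j, w⟫ = 0 := by
          rcases div_eq_zero_iff.1 h0 with h | h
          · exact h
          · exact absurd h hpos.ne'
        rw [inner_sub_left] at h1
        rw [real_inner_comm, real_inner_comm (v j)]
        linarith
  have hirr : Irred Γ := by
    intro W hW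
    by_cases hbot : W = ⊥
    · exact Or.inl hbot
    right
    obtain ⟨w, hw, hw0⟩ := Submodule.exists_mem_ne_zero_of_ne_bot hbot
    obtain ⟨i, j, hij⟩ : ∃ i j, ⟪w, v i⟫ ≠ ⟪w, v j⟫ := by
      by_contra hcon
      push Not at hcon
      exact hw0 (hspan w hcon)
    have hijne : i ≠ j := by
      rintro rfl
      exact hij rfl
    have hd : v i - v j ∈ W := by
      obtain ⟨γ, hγ, -, -, hγw⟩ := hswap i j hijne
      obtain ⟨a, ha, ha0⟩ := hγw w
      have h1 : a • (v i - v j) ∈ W := by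
        rw [← ha]
        exact W.sub_mem hw (hW γ hγ w hw)
      have h2 := W.smul_mem a⁻¹ h1
      rwa [smul_smul, inv_mul_cancel₀ (ha0 hij), one_smul] at h2
    have hd2 : ∀ k, v i - v k ∈ W := by
      intro k
      by_cases hki : k = i
      · rw [hki, sub_self]; exact W.zero_mem
      by_cases hkj : k = j
      · rw [hkj]; exact hd
      obtain ⟨γ, hγ, e1, e3, -⟩ := hswap j k (Ne.symm hkj)
      have h1 := hW γ hγ _ hd
      rw [map_sub, e1, e3 i hijne (Ne.symm hki)] at h1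
      exact h1
    have hvi : v i ∈ W := by
      have h1 : ∑ k, (v i - v k) ∈ W := W.sum_mem fun k _ => hd2 k
      rw [Finset.sum_sub_distrib, hsum, sub_zero] at h1
      simp only [Finset.sum_const, Finset.card_univ, Fintype.card_fin] at h1
      rw [← Nat.cast_smul_eq_nsmul ℝ] at h1
      have h2 := W.smul_mem (((n + 2 : ℕ) : ℝ)⁻¹) h1
      rwa [smul_smul, inv_mul_cancel₀ (by positivity), one_smul] at h2
    have hv : ∀ k, v k ∈ W := by
      intro k
      have := W.sub_mem hvi (hd2 k)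
      rwa [sub_sub_cancel] at this
    rw [← Submodule.orthogonal_eq_bot_iff, Submodule.eq_bot_iff]
    intro x hx
    apply hspan
    intro k l
    rw [Submodule.inner_left_of_mem_orthogonal (hv k) hx,
      Submodule.inner_left_of_mem_orthogonal (hv l) hx]
  refine ⟨Γ, hfin, le_antisymm (quotDiam_le_of_irred Γ hn hirr) ?_⟩
  have hn0 : ‖-v 0‖ = 1 := by rw [norm_neg, hv1]
  refine le_trans ?_ (le_quotDiam Γ (v 0) (-v 0) (hv1 0) hn0)
  apply le_ciInf
  intro γ
  rw [angle_eq _ _ (hv1 0) hn0]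
  apply Real.arccos_le_arccos
  have h1 : (γ : O n) '' Set.range v = Set.range v := γ.2
  have h2 : (γ : O n) (v 0) ∈ Set.range v := by
    rw [← h1]
    exact ⟨v 0, ⟨0, rfl⟩, rfl⟩
  obtain ⟨k, hk⟩ := h2
  rw [← hk, inner_neg_right]
  by_cases hk0 : k = 0
  · rw [hk0, real_inner_self_eq_norm_sq, hv1]
    have : (0 : ℝ) < 1 / ((n : ℝ) + 1) := by positivity
    linarith
  · rw [hvij k 0 hk0, neg_neg]

end simplex

/-- **Main theorem.**  Let `n ≥ 1`.  For every finite group `Γ` of isometries of the round sphere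
`Sⁿ` either `diam (Sⁿ/Γ) ≤ arccos (1/(n+1))` or `diam (Sⁿ/Γ) ≥ π/2`; and the number
`arccos (1/(n+1)) < π/2` is the diameter of `Sⁿ/Γ` for some finite group `Γ`. -/
theorem result : ∀ n : ℕ, 1 ≤ n →
    (∀ Γ : Subgroup (O n), Finite Γ →
      quotDiam Γ ≤ Real.arccos (1 / ((n : ℝ) + 1)) ∨ Real.pi / 2 ≤ quotDiam Γ) ∧
    (∃ Γ : Subgroup (O n), Finite Γ ∧ quotDiam Γ = Real.arccos (1 / ((n : ℝ) + 1))) := by
  intro n hn
  refine ⟨fun Γ hΓ => ?_, simplex_group n hn⟩
  by_cases hirr : Irred Γ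
  · exact Or.inl (quotDiam_le_of_irred Γ hn hirr)
  · exact Or.inr (le_quotDiam_of_not_irred Γ hirr)

end

end Pool.Agent.Results.MP_28a8c3_gt.SphericalGap
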